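import Pool.Agent.Q283.FT.Stm3

/-!
# Project FT, job AXP: the covering and the points
-/

set_option autoImplicit false

namespace Pool.Agent.Q238.FT

open NumberField IsDedekindDomain Filter Topology Finset WeierstrassCurve
open Pool.Agent.Q283.FT
open Pool.Agent.TH841.SH.D (Pt)

variable {F : Type} [Field F]

lemma df0 (e : Fin 3 → F) : df e 0 = e 1 - e 2 := by
  unfold df
  rw [if_pos rfl]

lemma df1 (e : Fin 3 → F) : df e 1 = e 0 - e 2 := by
  unfold df
  rw [if_neg (by decide), if_pos rfl]

lemma df2 (e : Fin 3 → F) : df e 2 = e 0 - e 1 := by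
  unfold df
  rw [if_neg (by decide), if_neg (by decide)]

lemma crv_isR {e : Fin 3 → F} (he : Rt e) (L : Type) [Field L] [Algebra F L] :
    Pool.Agent.TH841.SH.IsR ((crv e).baseChange L) (algebraMap F L (e 0)) (algebraMap F L (e 1))
      (algebraMap F L (e 2)) := by
  refine ⟨?_, ?_, ?_, ?_, ?_⟩
  · show algebraMap F L 0 = 0
    exact map_zero _
  · show algebraMap F L 0 = _
    rw [← map_add, ← map_add, he.sum, map_zero, neg_zero]
  · show algebraMap F L 0 = 0
    exact map_zero _
  · show algebraMap F L (e 0 * e 1 + e 0 * e 2 + e 1 * e 2) = _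
    rw [map_add, map_add, map_mul, map_mul, map_mul]
  · show algebraMap F L (-(e 0 * e 1 * e 2)) = _
    rw [map_neg, map_mul, map_mul]

lemma sq_div {L : Type} [Field L] {A c : L} (hA : A ≠ 0) (h : IsSquare (A * c)) :
    ∃ z : L, A * z ^ 2 = c := by
  obtain ⟨r, hr⟩ := h
  refine ⟨r / A, ?_⟩
  field_simp
  linear_combination -hr

theorem axp : S_AXP := by
  intro F _ _ i hi e he L _ _ a b ha hb
  have inj : Function.Injective (algebraMap F L) := (algebraMap F L).injective
  have hA : algebraMap F L a ≠ 0 := fun h => ha (inj (h.trans (map_zero _).symm))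
  have hB : algebraMap F L b ≠ 0 := fun h => hb (inj (h.trans (map_zero _).symm))
  have h2 : (2 : L) ≠ 0 := by
    intro h
    have h3 : algebraMap F L 2 = 0 := by rw [map_ofNat]; exact h
    exact two_ne_zero (inj (h3.trans (map_zero _).symm))
  have h01 : algebraMap F L (e 0) ≠ algebraMap F L (e 1) := fun h =>
    absurd (he.inj (inj h)) (by decide)
  have h02 : algebraMap F L (e 0) ≠ algebraMap F L (e 2) := fun h =>
    absurd (he.inj (inj h)) (by decide)
  have h12 : algebraMap F L (e 1) ≠ algebraMap F L (e 2) := fun h =>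
    absurd (he.inj (inj h)) (by decide)
  have hI : algebraMap F L i ^ 2 = -1 := by
    rw [← map_pow, hi, map_neg, map_one]
  have hR := crv_isR he L
  unfold Cov Cx
  rw [df0, df1, df2]
  simp only [map_mul, map_sub]
  generalize algebraMap F L a = A at *
  generalize algebraMap F L b = B at *
  generalize algebraMap F L (e 0) = e0 at *
  generalize algebraMap F L (e 1) = e1 at *
  generalize algebraMap F L (e 2) = e2 at *
  generalize algebraMap F L i = I at *
  have d01 : e0 - e1 ≠ 0 := sub_ne_zero.2 h01
  constructor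
  · rintro ⟨z, w, hzw, q1, q2⟩
    by_cases hw : w = 0
    · subst hw
      have hz : z ≠ 0 := hzw.resolve_right (fun h => h rfl)
      have q1' : A * z 0 ^ 2 = B * z 1 ^ 2 := by linear_combination q1
      have q2' : A * z 0 ^ 2 = A * B * z 2 ^ 2 := by linear_combination q2
      have hz0 : z 0 ^ 2 = B * z 2 ^ 2 := by
        apply mul_left_cancel₀ hA
        linear_combination q2'
      have hz1 : z 1 ^ 2 = A * z 2 ^ 2 := by
        apply mul_left_cancel₀ hB
        linear_combination q2' - q1'
      have hz2 : z 2 ≠ 0 := by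
        intro h
        apply hz
        rw [h] at hz0 hz1
        have g0 : z 0 = 0 := by
          apply pow_eq_zero_iff (two_ne_zero) |>.1
          linear_combination hz0
        have g1 : z 1 = 0 := by
          apply pow_eq_zero_iff (two_ne_zero) |>.1
          linear_combination hz1
        funext j
        fin_cases j
        · exact g0
        · exact g1
        · exact h
      refine ⟨0, hA, hB, Or.inl ⟨rfl, ⟨z 1 / z 2, ?_⟩, ⟨z 0 / z 2, ?_⟩⟩⟩
      · field_simp
        linear_combination -hz1
      · field_simp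
        linear_combination -hz0
    · have k1 : e0 + A * (z 0 / w) ^ 2 - e1 = B * (z 1 / w) ^ 2 := by
        field_simp
        linear_combination q1
      have k2 : e0 + A * (z 0 / w) ^ 2 - e2 = A * B * (z 2 / w) ^ 2 := by
        field_simp
        linear_combination q2
      have hE : (A * B * (z 0 / w) * (z 1 / w) * (z 2 / w)) ^ 2 =
          (e0 + A * (z 0 / w) ^ 2 - e0) * (e0 + A * (z 0 / w) ^ 2 - e1) *
            (e0 + A * (z 0 / w) ^ 2 - e2) := by
        rw [k1, k2]
        ring
      generalize z 0 / w = u at *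
      generalize z 1 / w = v at *
      generalize z 2 / w = t at *
      have hn := hR.nons h2 h01 h02 h12 hE
      refine ⟨Affine.Point.some _ _ hn, hA, hB, Or.inr ⟨_, _, hn, rfl, ?_, ?_⟩⟩
      · by_cases hx : e0 + A * u ^ 2 = e0
        · refine Or.inr ⟨hx, ⟨A * B * v * t, ?_⟩⟩
          have k1' : e0 - e1 = B * v ^ 2 := by linear_combination k1 - hx
          have k2' : e0 - e2 = A * B * t ^ 2 := by linear_combination k2 - hx
          rw [k1', k2']
          ring
        · refine Or.inl ⟨hx, ⟨A * u, ?_⟩⟩
          ring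
      · by_cases hx : e0 + A * u ^ 2 = e1
        · refine Or.inr ⟨hx, ⟨I * A * B * u * t, ?_⟩⟩
          have k1' : e0 - e1 = -(A * u ^ 2) := by linear_combination hx
          have k2' : e1 - e2 = A * B * t ^ 2 := by linear_combination k2 - hx
          rw [k1', k2']
          linear_combination (-(A * B * u * t) ^ 2) * hI
        · refine Or.inl ⟨hx, ⟨B * v, ?_⟩⟩
          rw [k1]
          ring
  · rintro ⟨P, -, -, hP⟩
    rcases hP with ⟨-, ⟨s, hs⟩, ⟨t, ht⟩⟩ | ⟨x, y, hn, -, h0, h1⟩
    · have hs0 : s ≠ 0 := fun h => hA (by rw [hs, h, mul_zero])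
      have ht0 : t ≠ 0 := fun h => hB (by rw [ht, h, mul_zero])
      refine ⟨![1 / s, 1 / t, 1 / (s * t)], 0, Or.inl ?_, ?_, ?_⟩
      · intro h
        have := congrFun h 0
        simp only [Matrix.cons_val_zero, Pi.zero_apply] at this
        exact one_div_ne_zero hs0 this
      · simp only [Matrix.cons_val_zero, Matrix.cons_val_one]
        rw [hs, ht]
        field_simp
        ring
      · simp only [Matrix.cons_val_zero, Matrix.cons_val_two, Matrix.head_cons, Matrix.tail_cons]
        rw [hs, ht]
        field_simp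
        ring
    · have hE := (hR.eqn x y).1 hn.1
      -- the three coordinates
      obtain ⟨z0, hz0⟩ : ∃ z0, A * z0 ^ 2 = x - e0 := by
        rcases h0 with ⟨-, h⟩ | ⟨h, -⟩
        · exact sq_div hA h
        · exact ⟨0, by rw [h]; ring⟩
      obtain ⟨z1, hz1⟩ : ∃ z1, B * z1 ^ 2 = x - e1 := by
        rcases h1 with ⟨-, h⟩ | ⟨h, -⟩
        · exact sq_div hB h
        · exact ⟨0, by rw [h]; ring⟩
      obtain ⟨z2, hz2⟩ : ∃ z2, A * B * z2 ^ 2 = x - e2 := by
        refine sq_div (mul_ne_zero hA hB) ?_
        rcases h0 with ⟨n0, r, hr⟩ | ⟨x0, r, hr⟩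
        · rcases h1 with ⟨n1, s, hs⟩ | ⟨x1, s, hs⟩
          · have d0 : x - e0 ≠ 0 := sub_ne_zero.2 n0
            have d1 : x - e1 ≠ 0 := sub_ne_zero.2 n1
            refine ⟨r * s * y / ((x - e0) * (x - e1)), ?_⟩
            field_simp
            linear_combination (A * (x - e0)) * (B * (x - e1)) * (-hE) +
              (y ^ 2 * (B * (x - e1))) * hr + y ^ 2 * (r * r) * hs
          · refine ⟨I * r * s / (e0 - e1), ?_⟩
            rw [x1] at hr
            rw [x1]
            field_simp
            linear_combination (-(B * (e1 - e2) * (e0 - e1))) * hr + (-(r * r)) * hs -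
              (r ^ 2 * s ^ 2) * hI
        · rcases h1 with ⟨n1, s, hs⟩ | ⟨x1, s, hs⟩
          · refine ⟨r * s / (e0 - e1), ?_⟩
            rw [x0] at hs
            rw [x0]
            field_simp
            linear_combination (B * (e0 - e1)) * hr + (r * r) * hs
          · exact absurd (x0.symm.trans x1) h01
      refine ⟨![z0, z1, z2], 1, Or.inr one_ne_zero, ?_, ?_⟩
      · simp only [Matrix.cons_val_zero, Matrix.cons_val_one]
        linear_combination hz0 - hz1
      · simp only [Matrix.cons_val_zero, Matrix.cons_val_two, Matrix.head_cons, Matrix.tail_cons]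
        linear_combination hz0 - hz2

end Pool.Agent.Q238.FT
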