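import Pool.Agent.Q238.FT.Axp
import Pool.Agent.Q149.EN.IDX2

/-!
# Project FT, job IDE: the number of the local classes
-/

set_option autoImplicit false

namespace Pool.Agent.Q238.FT

open NumberField IsDedekindDomain Filter Topology Finset WeierstrassCurve
open Pool.Agent.Q283.FT
open Pool.Agent.Q7.LK
open Pool.Agent.Q149.EN (exists_rep)
open Pool.Agent.Q285.LK (cpl_coe)
open Pool.Agent.TH841.SH.D (Pt)

theorem ide (hIDP : S_IDP) (hKUA : S_KUA) (hKUB : S_KUB) (hKUC : S_KUC) (hAXP : S_AXP)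
    (hLCP : S_LCP) (_hBAS : S_BAS) (hCPL : S_CPL) : S_IDE := by
  have hf2 : Fact (Nat.Prime 2) := ⟨Nat.prime_two⟩
  -- the integral case
  have key : ∀ (F : Type) [Field F] [NumberField F] (i : F), i ^ 2 = -1 →
      ∀ (v : HeightOneSpectrum (𝓞 F)) (e : Fin 3 → F), Rt e → (∀ j, IsIntegral ℤ (e j)) →
      ∃ B : Finset (F × F), 2 ^ (2 * (dv 2 v / 2) + 2) ≤ B.card ∧ (∀ b ∈ B, AX v e b.1 b.2) ∧
        ∀ b ∈ B, ∀ b' ∈ B, b ≠ b' → ¬ (Lpw 2 v (b.1 / b'.1) ∧ Lpw 2 v (b.2 / b'.2)) := by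
    intro F _ _ i hi v e he hint
    classical
    obtain ⟨M, hM1, hM2⟩ := hIDP F i hi v e he hint
    obtain ⟨k1, k2, k3, k4, -⟩ := hKUA F i hi e he (v.adicCompletion F)
    have hrep : ∀ P : Pt (crv e) (v.adicCompletion F), ∃ b : F × F, b.1 ≠ 0 ∧ b.2 ≠ 0 ∧
        Cx e (v.adicCompletion F) P (algebraMap F (v.adicCompletion F) b.1)
          (algebraMap F (v.adicCompletion F) b.2) := by
      intro P
      obtain ⟨a, b, hab⟩ := k1 P
      obtain ⟨α, s, hα, hs, e1⟩ := exists_rep v a hab.1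
      obtain ⟨β, s', hβ, hs', e2⟩ := exists_rep v b hab.2.1
      refine ⟨(α, β), hα, hβ, ?_⟩
      rw [e1, e2]
      exact k3 P a b s s' hs hs' hab
    choose f hf1 hf2 hf using hrep
    have hone : Lpw 2 v 1 := by
      intro n
      refine ⟨1, ?_⟩
      rw [one_pow, mul_one, sub_self, map_zero]
      exact WithZero.exp_pos
    have hdist : ∀ P Q : Pt (crv e) (v.adicCompletion F), P ∈ M → Q ∈ M → P ≠ Q →
        ¬ (Lpw 2 v ((f P).1 / (f Q).1) ∧ Lpw 2 v ((f P).2 / (f Q).2)) := by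
      rintro P Q hP hQ hPQ ⟨hL, hL'⟩
      obtain ⟨-, s, hs⟩ := (hCPL 2 F v _).1 hL
      obtain ⟨-, s', hs'⟩ := (hCPL 2 F v _).1 hL'
      rw [cpl_coe, map_div₀] at hs hs'
      have hq0 : algebraMap F (v.adicCompletion F) (f Q).1 ≠ 0 := (map_ne_zero _).2 (hf1 Q)
      have hq0' : algebraMap F (v.adicCompletion F) (f Q).2 ≠ 0 := (map_ne_zero _).2 (hf2 Q)
      have hp := (div_eq_iff hq0).1 hs
      have hp' := (div_eq_iff hq0').1 hs'
      obtain ⟨c, c', hc⟩ := k1 (-Q)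
      have h1 := hKUB F i hi e he (v.adicCompletion F) Q (-Q) _ _ c c' (hf Q) hc
      have hQQ : (Q + -Q : Pt (crv e) (v.adicCompletion F)) = 0 := add_neg_cancel Q
      rw [hQQ] at h1
      obtain ⟨⟨t, ht⟩, ⟨t', ht'⟩⟩ := k2 0 _ _ 1 1 h1 k4
      rw [div_one] at ht ht'
      have h3 := hKUB F i hi e he (v.adicCompletion F) P (-Q) _ _ c c' (hf P) hc
      rw [← sub_eq_add_neg] at h3
      obtain ⟨R, hR⟩ := hKUC F i hi e he (v.adicCompletion F) (P - Q) _ _ h3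
        ⟨s * t, by rw [hp, mul_assoc, ht]; ring⟩ ⟨s' * t', by rw [hp', mul_assoc, ht']; ring⟩
      exact hM2 P hP Q hQ hPQ R hR
    have hinj : Set.InjOn f (M : Set (Pt (crv e) (v.adicCompletion F))) := by
      intro P hP Q hQ h
      by_contra hPQ
      apply hdist P Q hP hQ hPQ
      rw [h, div_self (hf1 Q), div_self (hf2 Q)]
      exact ⟨hone, hone⟩
    refine ⟨M.image f, ?_, ?_, ?_⟩
    · rw [Finset.card_image_of_injOn hinj]
      exact hM1
    · intro b hb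
      obtain ⟨P, hP, rfl⟩ := Finset.mem_image.1 hb
      exact ⟨hf1 P, hf2 P, (hAXP F i hi e he (v.adicCompletion F) _ _ (hf1 P) (hf2 P)).2
        ⟨P, hf P⟩⟩
    · intro b hb b' hb' hbb
      obtain ⟨P, hP, rfl⟩ := Finset.mem_image.1 hb
      obtain ⟨Q, hQ, rfl⟩ := Finset.mem_image.1 hb'
      exact hdist P Q hP hQ (fun h => hbb (by rw [h]))
  -- reduction to the integral case
  intro F _ _ i hi v e he
  have hex : ∀ j, ∃ n : ℤ, n ≠ 0 ∧ IsIntegral ℤ (e j * (n : F)) := by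
    intro j
    have h : IsAlgebraic ℤ (e j) :=
      (IsFractionRing.isAlgebraic_iff ℤ ℚ F).2 (Algebra.IsAlgebraic.isAlgebraic (e j))
    obtain ⟨n, hn0, hn⟩ := h.exists_integral_multiple
    refine ⟨n, hn0, ?_⟩
    rw [mul_comm, ← zsmul_eq_mul]
    exact hn
  choose m hm0 hm using hex
  obtain ⟨n, hn0, hn⟩ : ∃ n : ℤ, n ≠ 0 ∧ ∀ j, IsIntegral ℤ (e j * (n : F)) := by
    refine ⟨m 0 * m 1 * m 2, mul_ne_zero (mul_ne_zero (hm0 0) (hm0 1)) (hm0 2), ?_⟩
    intro j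
    fin_cases j
    · have e1 : e 0 * ((m 0 * m 1 * m 2 : ℤ) : F) = (e 0 * (m 0 : F)) * ((m 1 * m 2 : ℤ) : F) := by
        push_cast
        ring
      show IsIntegral ℤ (e 0 * ((m 0 * m 1 * m 2 : ℤ) : F))
      rw [e1]
      exact (hm 0).mul (isIntegral_intCast _)
    · have e1 : e 1 * ((m 0 * m 1 * m 2 : ℤ) : F) = (e 1 * (m 1 : F)) * ((m 0 * m 2 : ℤ) : F) := by
        push_cast
        ring
      show IsIntegral ℤ (e 1 * ((m 0 * m 1 * m 2 : ℤ) : F))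
      rw [e1]
      exact (hm 1).mul (isIntegral_intCast _)
    · have e1 : e 2 * ((m 0 * m 1 * m 2 : ℤ) : F) = (e 2 * (m 2 : F)) * ((m 0 * m 1 : ℤ) : F) := by
        push_cast
        ring
      show IsIntegral ℤ (e 2 * ((m 0 * m 1 * m 2 : ℤ) : F))
      rw [e1]
      exact (hm 2).mul (isIntegral_intCast _)
  have hnF : (n : F) ≠ 0 := by exact_mod_cast hn0
  have hn2 : (n : F) ^ 2 ≠ 0 := pow_ne_zero 2 hnF
  have he' : Rt (twi ((n : F) ^ 2) e) := by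
    refine ⟨fun j k h => he.inj (mul_left_cancel₀ hn2 h), ?_⟩
    show (n : F) ^ 2 * e 0 + (n : F) ^ 2 * e 1 + (n : F) ^ 2 * e 2 = 0
    rw [← mul_add, ← mul_add, he.sum, mul_zero]
  obtain ⟨B, h1, h2, h3⟩ := key F i hi v (twi ((n : F) ^ 2) e) he' (by
    intro j
    have e1 : twi ((n : F) ^ 2) e j = (e j * (n : F)) * ((n : ℤ) : F) := by
      show (n : F) ^ 2 * e j = _
      ring
    rw [e1]
    exact (hn j).mul (isIntegral_intCast _))
  refine ⟨B, h1, fun b hb => ?_, h3⟩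
  have h4 := (hLCP F i hi (twi ((n : F) ^ 2) e) he' v).2.2.1 b.1 b.2 (((n : F) ^ 2)⁻¹) (by
      intro k
      refine ⟨n, ?_⟩
      rw [inv_mul_cancel₀ hn2, sub_self, map_zero]
      exact WithZero.exp_pos) (h2 b hb)
  have h5 : twi (((n : F) ^ 2)⁻¹) (twi ((n : F) ^ 2) e) = e := by
    funext j
    show ((n : F) ^ 2)⁻¹ * ((n : F) ^ 2 * e j) = e j
    rw [← mul_assoc, inv_mul_cancel₀ hn2, one_mul]
  rwa [h5] at h4

end Pool.Agent.Q238.FT
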